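import Pool.Agent.BetaK.Basic

/-!
# Certificates for `α_k(T) < β_k(T)`
-/

set_option autoImplicit false

namespace Pool.Agent.BK78

open Pool.Agent.BetaK

/-- A certificate for `α_k(T) = |D| < β_k(T)`: a dual pair `A`, `B`, a tight cut `X`, an arc `(a, b)`
of the cut outside the dual pair, and a staircase `s`, `t` of arcs of `D`, used to insert a vertex. -/
structure Cert (k : ℕ) {V : Type} [Fintype V] [DecidableEq V] (T D : Finset (V × V))
    (A B X : Finset V) (a b : V) (s t : Fin k → V) : Prop where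
  tour : IsTournament T
  strong : ArcStrong k T
  sub : D ⊆ T
  deg : MinDeg k D
  dual : k * A.card + k * B.card = D.card + (T.filter fun e => e.1 ∈ A ∧ e.2 ∈ B).card
  cut : (leaving T X).card = k
  mem : (a, b) ∈ leaving T X
  ha : a ∉ A
  hb : b ∉ B
  s_inj : Function.Injective s
  t_inj : Function.Injective t
  st : ∀ i j, s i ≠ t j
  sA : ∀ i, s i ∉ A
  sX : ∀ i, s i ∉ X
  stair : ∀ i j : Fin k, j ≤ i → (s i, t j) ∈ D

variable {k : ℕ} {V : Type} [Fintype V] [DecidableEq V] {T D : Finset (V × V)}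
  {A B X : Finset V} {a b : V} {s t : Fin k → V}

theorem Cert.alpha_eq (h : Cert k T D A B X a b s t) : alpha k T = D.card := by
  refine le_antisymm (Nat.sInf_le ⟨D, h.sub, h.deg, rfl⟩) ?_
  refine le_csInf ⟨D.card, D, h.sub, h.deg, rfl⟩ ?_
  rintro m ⟨D', hD', hdeg, rfl⟩
  have h1 := dual_bound hD' hdeg A B ∅ (by simp) (by simp)
  have h2 := h.dual
  simp only [Finset.card_empty] at h1
  omega

theorem Cert.beta_gt (h : Cert k T D A B X a b s t) : D.card + 1 ≤ beta k T := by
  have hab := (Finset.mem_filter.1 h.mem).2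
  have hX : X.Nonempty := ⟨a, hab.1⟩
  have hX' : X ≠ Finset.univ := fun he => hab.2 (by rw [he]; exact Finset.mem_univ _)
  have hV : 2 ≤ Fintype.card V := by
    have : a ≠ b := fun he => hab.2 (he ▸ hab.1)
    exact Fintype.one_lt_card_iff.2 ⟨a, b, this⟩
  refine le_csInf ⟨T.card, T, Finset.Subset.refl _, h.strong, rfl⟩ ?_
  rintro m ⟨D', hD', hstr, rfl⟩
  have h1 := cut_of_arcStrong hstr hX hX'
  have h2 : leaving D' X ⊆ leaving T X := Finset.filter_subset_filter _ hD'
  have h3 : leaving D' X = leaving T X :=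
    Finset.eq_of_subset_of_card_le h2 (by rw [h.cut]; exact h1)
  have h4 : (a, b) ∈ D' := by
    have h5 := h.mem
    rw [← h3] at h5
    exact (Finset.mem_filter.1 h5).1
  have h6 := dual_bound hD' (minDeg_of_arcStrong hstr hV) A B {(a, b)}
    (Finset.singleton_subset_iff.2 h4)
    (by
      intro e he
      rw [Finset.mem_singleton] at he
      subst he
      exact ⟨h.ha, h.hb⟩)
  have h7 := h.dual
  simp only [Finset.card_singleton] at h6
  omega

end Pool.Agent.BK78
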