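import Pool.Agent.BK78.Cert

/-!
# A Boolean check for certificates given by tables
-/

set_option autoImplicit false
set_option maxRecDepth 100000

namespace Pool.Agent.BK78

open Pool.Agent.BetaK

/-- tables describing a certificate on the vertices `0 .. n - 1`; rows and sets are bit masks -/
structure Dat where
  k : ℕ
  n : ℕ
  rowsT : List ℕ
  rowsD : List ℕ
  mA : ℕ
  mB : ℕ
  mX : ℕ
  a : ℕ
  b : ℕ
  s : List ℕ
  t : List ℕ
  outPar : List (List ℕ)
  outDep : List (List ℕ)
  inPar : List (List ℕ)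
  inDep : List (List ℕ)

/-- adjacency read off a list of rows given as bit masks -/
def adj (rows : List ℕ) (i j : ℕ) : Bool := (rows.getD i 0).testBit j

/-- an entry of a table -/
def entry (L : List (List ℕ)) (i v : ℕ) : ℕ := (L.getD i []).getD v 0

/-- the number of pairs satisfying `P` -/
def cnt2 (n : ℕ) (P : ℕ → ℕ → Bool) : ℕ :=
  ((List.range n).map fun i => ((List.range n).filter fun j => P i j).length).sum

theorem card_filter_fin (n : ℕ) (P : ℕ → Bool) :
    (Finset.univ.filter fun j : Fin n => P j = true).card = ((List.range n).filter P).length := by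
  rw [Finset.card_filter]
  rw [Fin.sum_univ_eq_sum_range (fun i => if P i = true then 1 else 0) n]
  rw [← Finset.card_filter]
  rw [← List.toFinset_card_of_nodup ((List.nodup_range (n := n)).filter P)]
  congr 1
  ext x
  simp

theorem card_filter_pairs (n : ℕ) (P : ℕ → ℕ → Bool) :
    (Finset.univ.filter fun e : Fin n × Fin n => P e.1 e.2 = true).card = cnt2 n P := by
  rw [Finset.card_filter, Fintype.sum_prod_type]
  have h : ∀ i : Fin n, (∑ j : Fin n, if P i j = true then 1 else 0) =
      (fun i : ℕ => ((List.range n).filter fun j => P i j).length) i := by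
    intro i
    rw [← Finset.card_filter]
    exact card_filter_fin n (fun j => P i j)
  rw [Finset.sum_congr rfl fun i _ => h i]
  rw [Fin.sum_univ_eq_sum_range
    (fun i : ℕ => ((List.range n).filter fun j => P i j).length) n]
  rfl

/-- a Boolean check for all pairs -/
theorem all_pairs {n : ℕ} {P : ℕ → ℕ → Bool}
    (h : ((List.range n).all fun i => (List.range n).all fun j => P i j) = true)
    {i j : ℕ} (hi : i < n) (hj : j < n) : P i j = true := by
  rw [List.all_eq_true] at h
  have h1 := h i (by simpa using hi)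
  rw [List.all_eq_true] at h1
  exact h1 j (by simpa using hj)

/-- a Boolean check for all vertices -/
theorem all_vertices {n : ℕ} {P : ℕ → Bool} (h : ((List.range n).all P) = true) {i : ℕ}
    (hi : i < n) : P i = true := by
  rw [List.all_eq_true] at h
  exact h i (by simpa using hi)

namespace Dat

/-- the check of the tournament and of the subdigraph -/
def ok1 (d : Dat) : Bool :=
  (List.range d.n).all fun i => (List.range d.n).all fun j =>
    (adj d.rowsT i j == (!(i == j) && !adj d.rowsT j i)) && (!adj d.rowsD i j || adj d.rowsT i j)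

/-- the check of the degrees -/
def ok2 (d : Dat) : Bool :=
  (List.range d.n).all fun v =>
    (Nat.ble d.k ((List.range d.n).filter fun j => adj d.rowsD v j).length &&
      Nat.ble d.k ((List.range d.n).filter fun j => adj d.rowsD j v).length)

/-- the check of the dual value -/
def ok3 (d : Dat) : Bool :=
  (d.k * ((List.range d.n).filter fun i => d.mA.testBit i).length +
    d.k * ((List.range d.n).filter fun i => d.mB.testBit i).length ==
  cnt2 d.n (fun i j => adj d.rowsD i j) +
    cnt2 d.n (fun i j => adj d.rowsT i j && (d.mA.testBit i && d.mB.testBit j)))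

/-- the check of the cut -/
def ok4 (d : Dat) : Bool :=
  (cnt2 d.n (fun i j => adj d.rowsT i j && (d.mX.testBit i && !d.mX.testBit j)) == d.k) &&
  (Nat.blt 0 d.k && Nat.blt d.a d.n && Nat.blt d.b d.n) &&
  (adj d.rowsT d.a d.b && d.mX.testBit d.a && !d.mX.testBit d.b && !d.mA.testBit d.a &&
    !d.mB.testBit d.b)

/-- the check of the staircase -/
def ok5 (d : Dat) : Bool :=
  (List.range d.k).all fun i => (Nat.blt (d.s.getD i 0) d.n && Nat.blt (d.t.getD i 0) d.n &&
    !d.mA.testBit (d.s.getD i 0) && !d.mX.testBit (d.s.getD i 0)) &&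
    (List.range d.k).all fun j =>
      ((i == j) || (!(d.s.getD i 0 == d.s.getD j 0) && !(d.t.getD i 0 == d.t.getD j 0))) &&
      !(d.s.getD i 0 == d.t.getD j 0) &&
      (Nat.blt i j || adj d.rowsD (d.s.getD i 0) (d.t.getD j 0))

/-- the check of the out-branchings and the in-branchings -/
def ok6 (d : Dat) : Bool :=
  (List.range d.k).all fun i => (List.range d.n).all fun v =>
    (v == 0) || ((Nat.blt (entry d.outPar i v) d.n && adj d.rowsT (entry d.outPar i v) v &&
      Nat.blt (entry d.outDep i (entry d.outPar i v)) (entry d.outDep i v)) &&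
     (Nat.blt (entry d.inPar i v) d.n && adj d.rowsT v (entry d.inPar i v) &&
      Nat.blt (entry d.inDep i (entry d.inPar i v)) (entry d.inDep i v)))

/-- the branchings are arc-disjoint -/
def ok7 (d : Dat) : Bool :=
  (List.range d.k).all fun i => (List.range d.k).all fun j => (List.range d.n).all fun v =>
    (v == 0) || (i == j) || (!(entry d.outPar i v == entry d.outPar j v) &&
      !(entry d.inPar i v == entry d.inPar j v))

/-- the tournament -/
def T (d : Dat) : Finset (Fin d.n × Fin d.n) :=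
  Finset.univ.filter fun e => adj d.rowsT e.1 e.2 = true

/-- the subdigraph -/
def D (d : Dat) : Finset (Fin d.n × Fin d.n) :=
  Finset.univ.filter fun e => adj d.rowsD e.1 e.2 = true

/-- a vertex set given by a bit mask -/
def set (d : Dat) (m : ℕ) : Finset (Fin d.n) := Finset.univ.filter fun i => m.testBit i = true

/-- the vertex with a given number -/
def vtx (d : Dat) (hn : 0 < d.n) (x : ℕ) : Fin d.n := ⟨x % d.n, Nat.mod_lt _ hn⟩

theorem vtx_val {d : Dat} {hn : 0 < d.n} {x : ℕ} (h : x < d.n) : (d.vtx hn x : ℕ) = x :=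
  Nat.mod_eq_of_lt h

theorem mem_T {d : Dat} {e : Fin d.n × Fin d.n} : e ∈ d.T ↔ adj d.rowsT e.1 e.2 = true := by
  simp [T]

theorem mem_D {d : Dat} {e : Fin d.n × Fin d.n} : e ∈ d.D ↔ adj d.rowsD e.1 e.2 = true := by
  simp [D]

theorem mem_set {d : Dat} {m : ℕ} {i : Fin d.n} : i ∈ d.set m ↔ m.testBit i = true := by
  simp [set]

theorem card_D (d : Dat) : d.D.card = cnt2 d.n (fun i j => adj d.rowsD i j) :=
  card_filter_pairs d.n (fun i j => adj d.rowsD i j)

theorem tour (d : Dat) (h : d.ok1 = true) : IsTournament d.T := by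
  constructor
  · intro v hv
    have h := all_pairs h v.isLt v.isLt
    rw [mem_T] at hv
    simp [hv] at h
  · intro u v huv
    have h := all_pairs h u.isLt v.isLt
    rw [mem_T, mem_T]
    have h1 : ((u : ℕ) == (v : ℕ)) = false := by
      rw [beq_eq_false_iff_ne]
      exact fun h => huv (Fin.ext h)
    simp only [h1, Bool.not_false, Bool.true_and, beq_iff_eq, Bool.and_eq_true] at h
    simp only [h.1]
    cases adj d.rowsT v u <;> simp

theorem sub (d : Dat) (h : d.ok1 = true) : d.D ⊆ d.T := by
  intro e he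
  rw [mem_D] at he
  rw [mem_T]
  have h := all_pairs h e.1.isLt e.2.isLt
  rw [Bool.and_eq_true, he] at h
  simpa using h.2

theorem deg (d : Dat) (h : d.ok2 = true) : MinDeg d.k d.D := by
  intro v
  have h := all_vertices h v.isLt
  rw [Bool.and_eq_true, Nat.ble_eq, Nat.ble_eq] at h
  constructor
  · refine h.1.trans ?_
    rw [← card_filter_fin d.n (fun j => adj d.rowsD v j)]
    refine Finset.card_le_card_of_injOn (fun j => (v, j)) ?_ ?_
    · intro j hj
      simp only [Finset.coe_filter, Finset.mem_univ, true_and, Set.mem_ofPred_eq] at hj ⊢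
      exact ⟨mem_D.2 hj, trivial⟩
    · intro i _ j _ hij
      simpa using hij
  · refine h.2.trans ?_
    rw [← card_filter_fin d.n (fun j => adj d.rowsD j v)]
    refine Finset.card_le_card_of_injOn (fun j => (j, v)) ?_ ?_
    · intro j hj
      simp only [Finset.coe_filter, Finset.mem_univ, true_and, Set.mem_ofPred_eq] at hj ⊢
      exact ⟨mem_D.2 hj, trivial⟩
    · intro i _ j _ hij
      simpa using hij

theorem card_set (d : Dat) (m : ℕ) :
    (d.set m).card = ((List.range d.n).filter fun i => m.testBit i).length :=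
  card_filter_fin d.n (fun i => m.testBit i)

theorem dual (d : Dat) (h : d.ok3 = true) :
    d.k * (d.set d.mA).card + d.k * (d.set d.mB).card =
      d.D.card + (d.T.filter fun e => e.1 ∈ d.set d.mA ∧ e.2 ∈ d.set d.mB).card := by
  have h1 : (d.T.filter fun e => e.1 ∈ d.set d.mA ∧ e.2 ∈ d.set d.mB).card =
      cnt2 d.n (fun i j => adj d.rowsT i j && (d.mA.testBit i && d.mB.testBit j)) := by
    rw [← card_filter_pairs, T, Finset.filter_filter]
    refine congrArg Finset.card (Finset.filter_congr fun e _ => ?_)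
    simp [mem_set]
  rw [h1, card_set, card_set, card_D]
  simpa [ok3] using h

theorem cut (d : Dat) (h : d.ok4 = true) : (leaving d.T (d.set d.mX)).card = d.k := by
  have h1 : (leaving d.T (d.set d.mX)).card =
      cnt2 d.n (fun i j => adj d.rowsT i j && (d.mX.testBit i && !d.mX.testBit j)) := by
    rw [← card_filter_pairs, leaving, T, Finset.filter_filter]
    refine congrArg Finset.card (Finset.filter_congr fun e _ => ?_)
    simp [mem_set]
  rw [h1]
  simp only [ok4, Bool.and_eq_true, beq_iff_eq] at h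
  exact h.1.1

theorem branch_facts (d : Dat) (h : d.ok6 = true) (i : Fin d.k) (v : Fin d.n)
    (hv : (v : ℕ) ≠ 0) :
    ((entry d.outPar i v < d.n ∧ adj d.rowsT (entry d.outPar i v) v = true) ∧
      entry d.outDep i (entry d.outPar i v) < entry d.outDep i v) ∧
    ((entry d.inPar i v < d.n ∧ adj d.rowsT v (entry d.inPar i v) = true) ∧
      entry d.inDep i (entry d.inPar i v) < entry d.inDep i v) := by
  have h2 := all_vertices (all_vertices h i.isLt) v.isLt
  have h3 : ((v : ℕ) == 0) = false := by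
    rw [beq_eq_false_iff_ne]
    exact hv
  rw [h3, Bool.false_or] at h2
  simpa only [Bool.and_eq_true, Nat.blt_eq] using h2

theorem disj_facts (d : Dat) (h : d.ok7 = true) (i j : Fin d.k) (v : Fin d.n)
    (hv : (v : ℕ) ≠ 0) (hij : i ≠ j) :
    entry d.outPar i v ≠ entry d.outPar j v ∧ entry d.inPar i v ≠ entry d.inPar j v := by
  have h2 := all_vertices (all_vertices (all_vertices h i.isLt) j.isLt) v.isLt
  have h3 : ((v : ℕ) == 0) = false := by
    rw [beq_eq_false_iff_ne]
    exact hv
  have h4 : ((i : ℕ) == (j : ℕ)) = false := by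
    rw [beq_eq_false_iff_ne]
    exact fun h => hij (Fin.ext h)
  rw [h3, h4, Bool.false_or, Bool.false_or] at h2
  simpa using h2

theorem strong (d : Dat) (hn : 0 < d.n) (hk : 1 ≤ d.k) (h6 : d.ok6 = true) (h7 : d.ok7 = true) :
    ArcStrong d.k d.T := by
  refine arcStrong_of_branchings hk (⟨0, hn⟩ : Fin d.n)
    (fun i v => d.vtx hn (entry d.outPar i v)) (fun i v => d.vtx hn (entry d.inPar i v))
    (fun i v => entry d.outDep i v) (fun i v => entry d.inDep i v) ?_ ?_ ?_ ?_
  · intro i v hv
    have hv : (v : ℕ) ≠ 0 := fun h => hv (Fin.ext h)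
    obtain ⟨⟨⟨h1, h2⟩, h3⟩, _⟩ := d.branch_facts h6 i v hv
    simp only [mem_T, vtx_val h1]
    exact ⟨h2, h3⟩
  · intro i v hv
    have hv : (v : ℕ) ≠ 0 := fun h => hv (Fin.ext h)
    obtain ⟨_, ⟨h1, h2⟩, h3⟩ := d.branch_facts h6 i v hv
    simp only [mem_T, vtx_val h1]
    exact ⟨h2, h3⟩
  · intro i j v hv hij
    have hv : (v : ℕ) ≠ 0 := fun h => hv (Fin.ext h)
    by_contra hne
    obtain ⟨⟨⟨h1, _⟩, _⟩, _⟩ := d.branch_facts h6 i v hv
    obtain ⟨⟨⟨h2, _⟩, _⟩, _⟩ := d.branch_facts h6 j v hv
    have h := congrArg Fin.val hij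
    rw [vtx_val h1, vtx_val h2] at h
    exact (d.disj_facts h7 i j v hv hne).1 h
  · intro i j v hv hij
    have hv : (v : ℕ) ≠ 0 := fun h => hv (Fin.ext h)
    by_contra hne
    obtain ⟨_, ⟨h1, _⟩, _⟩ := d.branch_facts h6 i v hv
    obtain ⟨_, ⟨h2, _⟩, _⟩ := d.branch_facts h6 j v hv
    have h := congrArg Fin.val hij
    rw [vtx_val h1, vtx_val h2] at h
    exact (d.disj_facts h7 i j v hv hne).2 h

/-- The tables give a certificate. -/
theorem cert (d : Dat) (hn : 0 < d.n) (h1 : d.ok1 = true) (h2 : d.ok2 = true)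
    (h3 : d.ok3 = true) (h4 : d.ok4 = true) (h5 : d.ok5 = true) (h6 : d.ok6 = true)
    (h7 : d.ok7 = true) :
    Cert d.k d.T d.D (d.set d.mA) (d.set d.mB) (d.set d.mX) (d.vtx hn d.a) (d.vtx hn d.b)
      (fun i => d.vtx hn (d.s.getD i 0)) (fun i => d.vtx hn (d.t.getD i 0)) := by
  have h4' := h4
  simp only [ok4, Bool.and_eq_true, Nat.blt_eq, Bool.not_eq_true', beq_iff_eq] at h4'
  obtain ⟨⟨_, ⟨hk, ha⟩, hb⟩, ⟨⟨⟨hT, hXa⟩, hXb⟩, hAa⟩, hBb⟩ := h4'
  have hs : ∀ i : Fin d.k, d.s.getD i 0 < d.n ∧ d.t.getD i 0 < d.n ∧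
      d.mA.testBit (d.s.getD i 0) = false ∧ d.mX.testBit (d.s.getD i 0) = false := by
    intro i
    have h := all_vertices h5 i.isLt
    simp only [Bool.and_eq_true, Nat.blt_eq, Bool.not_eq_true'] at h
    exact ⟨h.1.1.1.1, h.1.1.1.2, h.1.1.2, h.1.2⟩
  have hst : ∀ i j : Fin d.k, ((i : ℕ) = j ∨
      (d.s.getD i 0 ≠ d.s.getD j 0 ∧ d.t.getD i 0 ≠ d.t.getD j 0)) ∧
      d.s.getD i 0 ≠ d.t.getD j 0 ∧
      ((i : ℕ) < j ∨ adj d.rowsD (d.s.getD i 0) (d.t.getD j 0) = true) := by
    intro i j
    have h := all_vertices h5 i.isLt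
    rw [Bool.and_eq_true] at h
    have h := all_vertices h.2 j.isLt
    simp only [Bool.and_eq_true, Bool.or_eq_true, Nat.blt_eq, Bool.not_eq_true', beq_iff_eq,
      beq_eq_false_iff_ne] at h
    exact ⟨h.1.1, h.1.2, h.2⟩
  refine ⟨d.tour h1, d.strong hn hk h6 h7, d.sub h1, d.deg h2, d.dual h3, d.cut h4, ?_, ?_, ?_,
    ?_, ?_, ?_, ?_, ?_, ?_⟩
  · rw [leaving, Finset.mem_filter, mem_T, mem_set, mem_set, vtx_val ha, vtx_val hb, hXb]
    exact ⟨hT, hXa, by simp⟩
  · rw [mem_set, vtx_val ha, hAa]
    simp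
  · rw [mem_set, vtx_val hb, hBb]
    simp
  · intro i j hij
    have h := congrArg Fin.val hij
    simp only [vtx_val (hs i).1, vtx_val (hs j).1] at h
    exact Fin.ext ((hst i j).1.resolve_right fun h' => h'.1 h)
  · intro i j hij
    have h := congrArg Fin.val hij
    simp only [vtx_val (hs i).2.1, vtx_val (hs j).2.1] at h
    exact Fin.ext ((hst i j).1.resolve_right fun h' => h'.2 h)
  · intro i j hij
    have h := congrArg Fin.val hij
    simp only [vtx_val (hs i).1, vtx_val (hs j).2.1] at h
    exact (hst i j).2.1 h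
  · intro i
    rw [mem_set, vtx_val (hs i).1, (hs i).2.2.1]
    simp
  · intro i
    rw [mem_set, vtx_val (hs i).1, (hs i).2.2.2]
    simp
  · intro i j hij
    rw [mem_D]
    simp only [vtx_val (hs i).1, vtx_val (hs j).2.1]
    exact (hst i j).2.2.resolve_left (fun h => by
      have : (j : ℕ) ≤ i := hij
      omega)

end Dat

end Pool.Agent.BK78
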