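import Pool.Agent.BK78.Cert

/-!
# Transport of certificates along bijections of the vertex set
-/

set_option autoImplicit false

namespace Pool.Agent.BK78

open Pool.Agent.BetaK

variable {k : ℕ} {V W : Type} [Fintype V] [DecidableEq V] [Fintype W] [DecidableEq W]

/-- the map on pairs -/
def pr (e : V ≃ W) : V × V ≃ W × W := e.prodCongr e

omit [Fintype V] [DecidableEq V] [Fintype W] [DecidableEq W] in
theorem mem_pr (e : V ≃ W) (T : Finset (V × V)) (x y : W) :
    (x, y) ∈ T.map (pr e).toEmbedding ↔ (e.symm x, e.symm y) ∈ T := by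
  rw [Finset.mem_map_equiv]
  rfl

omit [Fintype V] [DecidableEq V] [Fintype W] [DecidableEq W] in
theorem filter_pr (e : V ≃ W) (T : Finset (V × V)) (p : W × W → Prop) [DecidablePred p]
    (q : V × V → Prop) [DecidablePred q] (h : ∀ x y, q (x, y) ↔ p (e x, e y)) :
    (T.map (pr e).toEmbedding).filter p = (T.filter q).map (pr e).toEmbedding := by
  ext ⟨x, y⟩
  rw [Finset.mem_filter, mem_pr, mem_pr, Finset.mem_filter, h]
  simp

theorem Cert.map {T D : Finset (V × V)} {A B X : Finset V} {a b : V} {s t : Fin k → V}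
    (h : Cert k T D A B X a b s t) (e : V ≃ W) :
    Cert k (T.map (pr e).toEmbedding) (D.map (pr e).toEmbedding) (A.map e.toEmbedding)
      (B.map e.toEmbedding) (X.map e.toEmbedding) (e a) (e b) (e ∘ s) (e ∘ t) where
  tour := by
    refine ⟨fun v => ?_, fun u v huv => ?_⟩
    · rw [mem_pr]; exact h.tour.1 _
    · rw [mem_pr, mem_pr]
      exact h.tour.2 _ _ (fun he => huv (e.symm.injective he))
  strong := by
    intro F hF hc u v
    have h1 := h.strong (F.map (pr e.symm).toEmbedding) (by
      rintro ⟨x, y⟩ hxy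
      rw [mem_pr] at hxy
      have h2 := hF hxy
      rw [mem_pr] at h2
      simpa using h2) (by rw [Finset.card_map]; exact hc) (e.symm u) (e.symm v)
    have h2 : ∀ w, Relation.ReflTransGen
        (fun x y => (x, y) ∈ T \ F.map (pr e.symm).toEmbedding) (e.symm u) w →
        Relation.ReflTransGen (fun x y => (x, y) ∈ T.map (pr e).toEmbedding \ F) u (e w) := by
      intro w hw
      induction hw with
      | refl => rw [Equiv.apply_symm_apply]
      | @tail y z _ hyz ih =>
        refine ih.tail ?_
        rw [Finset.mem_sdiff] at hyz ⊢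
        rw [mem_pr]
        rw [mem_pr] at hyz
        simpa using hyz
    have h2 := h2 _ h1
    simpa using h2
  sub := Finset.map_subset_map.2 h.sub
  deg := by
    intro v
    have h1 := h.deg (e.symm v)
    rw [filter_pr e D (fun x => x.1 = v) (fun x => x.1 = e.symm v)
        (fun x y => by simp [Equiv.eq_symm_apply]),
      filter_pr e D (fun x => x.2 = v) (fun x => x.2 = e.symm v)
        (fun x y => by simp [Equiv.eq_symm_apply]), Finset.card_map, Finset.card_map]
    exact h1
  dual := by
    rw [filter_pr e T (fun x => x.1 ∈ A.map e.toEmbedding ∧ x.2 ∈ B.map e.toEmbedding)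
      (fun x => x.1 ∈ A ∧ x.2 ∈ B) (fun x y => by simp), Finset.card_map, Finset.card_map,
      Finset.card_map, Finset.card_map]
    exact h.dual
  cut := by
    unfold leaving
    rw [filter_pr e T (fun x => x.1 ∈ X.map e.toEmbedding ∧ x.2 ∉ X.map e.toEmbedding)
      (fun x => x.1 ∈ X ∧ x.2 ∉ X) (fun x y => by simp), Finset.card_map]
    exact h.cut
  mem := by
    unfold leaving
    rw [filter_pr e T (fun x => x.1 ∈ X.map e.toEmbedding ∧ x.2 ∉ X.map e.toEmbedding)
      (fun x => x.1 ∈ X ∧ x.2 ∉ X) (fun x y => by simp), mem_pr, Equiv.symm_apply_apply,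
      Equiv.symm_apply_apply]
    exact h.mem
  ha := by simpa using h.ha
  hb := by simpa using h.hb
  s_inj := e.injective.comp h.s_inj
  t_inj := e.injective.comp h.t_inj
  st := fun i j hij => h.st i j (e.injective hij)
  sA := fun i => by simpa using h.sA i
  sX := fun i => by simpa using h.sX i
  stair := fun i j hij => by
    rw [mem_pr]
    simpa using h.stair i j hij

theorem Cert.fin {T D : Finset (V × V)} {A B X : Finset V} {a b : V} {s t : Fin k → V}
    (h : Cert k T D A B X a b s t) {n : ℕ} (hn : Fintype.card V = n) :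
    ∃ (T' D' : Finset (Fin n × Fin n)) (A' B' X' : Finset (Fin n)) (a' b' : Fin n)
      (s' t' : Fin k → Fin n), Cert k T' D' A' B' X' a' b' s' t' ∧ D'.card = D.card :=
  ⟨_, _, _, _, _, _, _, _, _, h.map (Fintype.equivFinOfCardEq hn), Finset.card_map _⟩

end Pool.Agent.BK78
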