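import Pool.Agent.BK78.Cert

/-!
# Inserting a vertex into a certificate
-/

set_option autoImplicit false

namespace Pool.Agent.BK78

open Pool.Agent.BetaK

variable {k : ℕ} {V : Type} {T D : Finset (V × V)}
  {A B X : Finset V} {a b : V} {s t : Fin k → V}

/-- the arcs of the new tournament -/
def tP (T : Finset (V × V)) (s : Fin k → V) : Option V × Option V → Prop
  | (some x, some y) => (x, y) ∈ T
  | (some x, none) => ∃ i, s i = x
  | (none, some y) => ∀ i, s i ≠ y
  | (none, none) => False

/-- the arcs of the new subdigraph -/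
def dP (D : Finset (V × V)) (s t : Fin k → V) : Option V × Option V → Prop
  | (some x, some y) => (x, y) ∈ D ∧ ∀ i, ¬ (s i = x ∧ t i = y)
  | (some x, none) => ∃ i, s i = x
  | (none, some y) => ∃ i, t i = y
  | (none, none) => False

section

variable [Fintype V] [DecidableEq V]

open Classical in
/-- the new tournament -/
noncomputable def nT (T : Finset (V × V)) (s : Fin k → V) : Finset (Option V × Option V) :=
  Finset.univ.filter (tP T s)

open Classical in
/-- the new subdigraph -/
noncomputable def nD (D : Finset (V × V)) (s t : Fin k → V) : Finset (Option V × Option V) :=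
  Finset.univ.filter (dP D s t)

theorem mem_nT {e : Option V × Option V} : e ∈ nT T s ↔ tP T s e := by
  simp [nT]

theorem mem_nD {e : Option V × Option V} : e ∈ nD D s t ↔ dP D s t e := by
  simp [nD]

theorem tour_nT (h : IsTournament T) : IsTournament (nT T s) := by
  refine ⟨?_, ?_⟩
  · rintro (_ | v) hv
    · exact mem_nT.1 hv
    · exact h.1 v (mem_nT.1 hv)
  · rintro (_ | u) (_ | v) huv
    · exact absurd rfl huv
    · rw [mem_nT, mem_nT]
      simp only [tP]
      push Not
      rfl
    · rw [mem_nT, mem_nT]
      simp only [tP]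
      push Not
      rfl
    · rw [mem_nT, mem_nT]
      exact h.2 u v (fun he => huv (by rw [he]))

theorem sub_nD (hD : D ⊆ T) (hst : ∀ i j, s i ≠ t j) : nD D s t ⊆ nT T s := by
  rintro ⟨_ | u, _ | v⟩ he <;> rw [mem_nD] at he <;> rw [mem_nT]
  · exact he
  · obtain ⟨i, rfl⟩ := he
    exact fun j => hst j i
  · exact he
  · exact hD he.1

theorem strong_nT (hk : 1 ≤ k) (h : ArcStrong k T) (hs : Function.Injective s)
    (ht : Function.Injective t) (hst : ∀ i j, s i ≠ t j) : ArcStrong k (nT T s) := by
  refine arcStrong_of_cut hk fun Y hY hY' => ?_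
  set X0 : Finset V := Finset.univ.filter fun v => some v ∈ Y with hX0
  have hmem : ∀ v, v ∈ X0 ↔ some v ∈ Y := fun v => by simp [hX0]
  rcases Finset.eq_empty_or_nonempty X0 with h0 | h0
  · have hnone : none ∈ Y := by
      obtain ⟨y, hy⟩ := hY
      rcases y with _ | v
      · exact hy
      · exact absurd ((hmem v).2 hy) (by rw [h0]; simp)
    have hsome : ∀ v, some v ∉ Y := fun v hv => by
      have := (hmem v).2 hv
      rw [h0] at this
      simp at this
    calc k = (Finset.univ : Finset (Fin k)).card := by simp
      _ ≤ (leaving (nT T s) Y).card := by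
        refine Finset.card_le_card_of_injOn (fun j => (none, some (t j))) ?_ ?_
        · intro j _
          refine Finset.mem_coe.2 (Finset.mem_filter.2 ⟨mem_nT.2 fun i => hst i j, hnone, hsome _⟩)
        · intro i _ j _ hij
          simp only [Prod.mk.injEq, Option.some.injEq, true_and] at hij
          exact ht hij
  · by_cases h1 : X0 = Finset.univ
    · have hnone : none ∉ Y := by
        intro hn
        apply hY'
        ext y
        rcases y with _ | v
        · simp [hn]
        · have : v ∈ X0 := by rw [h1]; exact Finset.mem_univ v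
          simp [(hmem v).1 this]
      calc k = (Finset.univ : Finset (Fin k)).card := by simp
        _ ≤ (leaving (nT T s) Y).card := by
          refine Finset.card_le_card_of_injOn (fun j => (some (s j), none)) ?_ ?_
          · intro j _
            refine Finset.mem_coe.2 (Finset.mem_filter.2 ⟨mem_nT.2 ⟨j, rfl⟩, ?_, hnone⟩)
            exact (hmem _).1 (by rw [h1]; exact Finset.mem_univ _)
          · intro i _ j _ hij
            simp only [Prod.mk.injEq, Option.some.injEq, and_true] at hij
            exact hs hij
    · refine (cut_of_arcStrong h h0 h1).trans ?_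
      refine Finset.card_le_card_of_injOn (fun e => (some e.1, some e.2)) ?_ ?_
      · rintro ⟨x, y⟩ he
        obtain ⟨h2, h3, h4⟩ := Finset.mem_filter.1 (Finset.mem_coe.1 he)
        refine Finset.mem_coe.2 (Finset.mem_filter.2 ⟨mem_nT.2 h2, (hmem _).1 h3, ?_⟩)
        exact fun h5 => h4 ((hmem _).2 h5)
      · rintro ⟨x, y⟩ _ ⟨x', y'⟩ _ hij
        simp only [Prod.mk.injEq, Option.some.injEq] at hij
        exact Prod.ext hij.1 hij.2

open Classical in
/-- the map of the arcs keeping the tails -/
noncomputable def fO (s t : Fin k → V) (e : V × V) : Option V × Option V :=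
  if ∃ i, s i = e.1 ∧ t i = e.2 then (some e.1, none) else (some e.1, some e.2)

open Classical in
/-- the map of the arcs keeping the heads -/
noncomputable def fI (s t : Fin k → V) (e : V × V) : Option V × Option V :=
  if ∃ i, s i = e.1 ∧ t i = e.2 then (none, some e.2) else (some e.1, some e.2)

theorem fO_fst (e : V × V) : (fO s t e).1 = some e.1 := by
  unfold fO; split_ifs <;> rfl

theorem fI_snd (e : V × V) : (fI s t e).2 = some e.2 := by
  unfold fI; split_ifs <;> rfl

theorem fO_inj (hs : Function.Injective s) : Function.Injective (fO s t) := by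
  rintro ⟨x, y⟩ ⟨x', y'⟩ h
  have h1 := congrArg Prod.fst h
  rw [fO_fst, fO_fst] at h1
  simp only [Option.some.injEq] at h1
  subst h1
  unfold fO at h
  simp only at h
  split_ifs at h with h2 h3 h3
  · obtain ⟨i, hi, rfl⟩ := h2
    obtain ⟨j, hj, rfl⟩ := h3
    rw [hs (hi.trans hj.symm)]
  · simp at h
  · simp at h
  · simp only [Prod.mk.injEq, Option.some.injEq, true_and] at h
    rw [h]

theorem fI_inj (ht : Function.Injective t) : Function.Injective (fI s t) := by
  rintro ⟨x, y⟩ ⟨x', y'⟩ h
  have h1 := congrArg Prod.snd h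
  rw [fI_snd, fI_snd] at h1
  simp only [Option.some.injEq] at h1
  subst h1
  unfold fI at h
  simp only at h
  split_ifs at h with h2 h3 h3
  · obtain ⟨i, rfl, hi⟩ := h2
    obtain ⟨j, rfl, hj⟩ := h3
    rw [ht (hi.trans hj.symm)]
  · simp at h
  · simp at h
  · simp only [Prod.mk.injEq, Option.some.injEq, and_true] at h
    rw [h]

theorem fO_mem {e : V × V} (he : e ∈ D) : fO s t e ∈ nD D s t := by
  obtain ⟨x, y⟩ := e
  rw [mem_nD]
  unfold fO
  split_ifs with h
  · obtain ⟨i, hi, _⟩ := h
    exact ⟨i, hi⟩
  · exact ⟨he, fun i hi => h ⟨i, hi⟩⟩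

theorem fI_mem {e : V × V} (he : e ∈ D) : fI s t e ∈ nD D s t := by
  obtain ⟨x, y⟩ := e
  rw [mem_nD]
  unfold fI
  split_ifs with h
  · obtain ⟨i, _, hi⟩ := h
    exact ⟨i, hi⟩
  · exact ⟨he, fun i hi => h ⟨i, hi⟩⟩

theorem card_nD (hs : Function.Injective s) (ht : Function.Injective t)
    (hst : ∀ i, (s i, t i) ∈ D) : (nD D s t).card = D.card + k := by
  classical
  have h1 : nD D s t = D.image (fO s t) ∪
      (Finset.univ : Finset (Fin k)).image (fun i => ((none, some (t i)) : Option V × Option V)) := by
    ext e
    rw [Finset.mem_union, Finset.mem_image, Finset.mem_image, mem_nD]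
    constructor
    · intro he
      rcases e with ⟨_ | x, _ | y⟩
      · exact absurd he id
      · obtain ⟨i, rfl⟩ := he
        exact Or.inr ⟨i, Finset.mem_univ _, rfl⟩
      · obtain ⟨i, rfl⟩ := he
        refine Or.inl ⟨(s i, t i), hst i, ?_⟩
        unfold fO
        rw [if_pos ⟨i, rfl, rfl⟩]
      · refine Or.inl ⟨(x, y), he.1, ?_⟩
        unfold fO
        rw [if_neg]
        rintro ⟨i, hi⟩
        exact he.2 i hi
    · rintro (⟨e', he', rfl⟩ | ⟨i, _, rfl⟩)
      · exact mem_nD.1 (fO_mem he')
      · exact ⟨i, rfl⟩
  rw [h1, Finset.card_union_of_disjoint, Finset.card_image_of_injective _ (fO_inj hs),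
    Finset.card_image_of_injective, Finset.card_univ, Fintype.card_fin]
  · intro i j hij
    simp only [Prod.mk.injEq, Option.some.injEq, true_and] at hij
    exact ht hij
  · rw [Finset.disjoint_left]
    rintro e h2 h3
    obtain ⟨e', _, rfl⟩ := Finset.mem_image.1 h2
    obtain ⟨i, _, hi⟩ := Finset.mem_image.1 h3
    have h4 := congrArg Prod.fst hi
    rw [fO_fst] at h4
    simp at h4

theorem deg_nD (hD : MinDeg k D) (hs : Function.Injective s) (ht : Function.Injective t) :
    MinDeg k (nD D s t) := by
  rintro (_ | v)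
  · constructor
    · calc k = (Finset.univ : Finset (Fin k)).card := by simp
        _ ≤ _ := by
          refine Finset.card_le_card_of_injOn (fun j => (none, some (t j))) ?_ ?_
          · intro j _
            exact Finset.mem_coe.2 (Finset.mem_filter.2 ⟨mem_nD.2 ⟨j, rfl⟩, rfl⟩)
          · intro i _ j _ hij
            simp only [Prod.mk.injEq, Option.some.injEq, true_and] at hij
            exact ht hij
    · calc k = (Finset.univ : Finset (Fin k)).card := by simp
        _ ≤ _ := by
          refine Finset.card_le_card_of_injOn (fun j => (some (s j), none)) ?_ ?_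
          · intro j _
            exact Finset.mem_coe.2 (Finset.mem_filter.2 ⟨mem_nD.2 ⟨j, rfl⟩, rfl⟩)
          · intro i _ j _ hij
            simp only [Prod.mk.injEq, Option.some.injEq, and_true] at hij
            exact hs hij
  · constructor
    · refine (hD v).1.trans (Finset.card_le_card_of_injOn (fO s t) ?_ ((fO_inj hs).injOn))
      intro e he
      obtain ⟨h1, h2⟩ := Finset.mem_filter.1 (Finset.mem_coe.1 he)
      exact Finset.mem_coe.2 (Finset.mem_filter.2 ⟨fO_mem h1, by rw [fO_fst, h2]⟩)
    · refine (hD v).2.trans (Finset.card_le_card_of_injOn (fI s t) ?_ ((fI_inj ht).injOn))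
      intro e he
      obtain ⟨h1, h2⟩ := Finset.mem_filter.1 (Finset.mem_coe.1 he)
      exact Finset.mem_coe.2 (Finset.mem_filter.2 ⟨fI_mem h1, by rw [fI_snd, h2]⟩)

/-- the embedding of the old pairs -/
def emb : V × V ↪ Option V × Option V :=
  ⟨fun e => (some e.1, some e.2), fun e e' h => by
    simp only [Prod.mk.injEq, Option.some.injEq] at h
    exact Prod.ext h.1 h.2⟩

theorem Cert.insert (hk : 1 ≤ k) (h : Cert k T D A B X a b s t) :
    ∃ (T' D' : Finset (Option V × Option V)) (A' B' X' : Finset (Option V)) (a' b' : Option V)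
      (s' t' : Fin k → Option V),
      Cert k T' D' A' B' X' a' b' s' t' ∧ D'.card = D.card + k := by
  classical
  have hcard := card_nD h.s_inj h.t_inj (fun i => h.stair i i le_rfl)
  refine ⟨nT T s, nD D s t, A.map Function.Embedding.some,
    Insert.insert none (B.map Function.Embedding.some), X.map Function.Embedding.some, some a,
    some b, fun i => some (s i),
    fun j => if hj : (j : ℕ) = 0 then none else some (t ⟨j - 1, by omega⟩), ?_, hcard⟩
  refine ⟨tour_nT h.tour, strong_nT hk h.strong h.s_inj h.t_inj h.st, sub_nD h.sub h.st,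
    deg_nD h.deg h.s_inj h.t_inj, ?_, ?_, ?_, ?_, ?_, ?_, ?_, ?_, ?_, ?_, ?_⟩
  · have h1 : ((nT T s).filter fun e => e.1 ∈ A.map Function.Embedding.some ∧
        e.2 ∈ Insert.insert none (B.map Function.Embedding.some)) =
        (T.filter fun e => e.1 ∈ A ∧ e.2 ∈ B).map emb := by
      ext ⟨x, y⟩
      rcases x with _ | x
      · simp [emb]
      · rcases y with _ | y
        · simp only [Finset.mem_filter, mem_nT, tP, Finset.mem_map, emb]
          constructor
          · rintro ⟨⟨i, rfl⟩, ⟨z, hz, hz'⟩, _⟩
            exact absurd hz (by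
              have : z = s i := by simpa using hz'
              rw [this]
              exact h.sA i)
          · rintro ⟨e, _, he⟩
            simp at he
        · simp [mem_nT, tP, emb]
    rw [h1, Finset.card_map, hcard, Finset.card_map, Finset.card_insert_of_notMem (by simp),
      Finset.card_map]
    have := h.dual
    ring_nf at this ⊢
    omega
  · have h1 : leaving (nT T s) (X.map Function.Embedding.some) = (leaving T X).map emb := by
      ext ⟨x, y⟩
      unfold leaving
      rcases x with _ | x
      · simp [emb]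
      · rcases y with _ | y
        · simp only [Finset.mem_filter, mem_nT, tP, Finset.mem_map, emb]
          constructor
          · rintro ⟨⟨i, rfl⟩, ⟨z, hz, hz'⟩, _⟩
            exact absurd hz (by
              have : z = s i := by simpa using hz'
              rw [this]
              exact h.sX i)
          · rintro ⟨e, _, he⟩
            simp at he
        · simp [mem_nT, tP, emb]
    rw [h1, Finset.card_map, h.cut]
  · obtain ⟨h1, h2, h3⟩ := Finset.mem_filter.1 h.mem
    exact Finset.mem_filter.2 ⟨mem_nT.2 h1, by simpa using h2, by simpa using h3⟩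
  · simpa using h.ha
  · simpa using h.hb
  · intro i j hij
    simp only [Option.some.injEq] at hij
    exact h.s_inj hij
  · intro i j hij
    simp only at hij
    split_ifs at hij with h1 h2 h2
    · exact Fin.ext (by omega)
    · simp only [Option.some.injEq] at hij
      have := congrArg Fin.val (h.t_inj hij)
      simp only at this
      exact Fin.ext (by omega)
  · intro i j
    split_ifs with h1
    · simp
    · simp only [ne_eq, Option.some.injEq]
      exact h.st i _
  · intro i
    simpa using h.sA i
  · intro i
    simpa using h.sX i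
  · intro i j hij
    rw [mem_nD]
    split_ifs with h1
    · exact ⟨i, rfl⟩
    · refine ⟨h.stair i _ ?_, ?_⟩
      · rw [Fin.le_def] at hij ⊢
        simp only
        omega
      · rintro i' ⟨h2, h3⟩
        have h4 := h.s_inj h2
        have h5 := congrArg Fin.val (h.t_inj h3)
        simp only at h5
        rw [Fin.le_def] at hij
        rw [h4] at h5
        omega

end

/-- transport of a certificate along a bijection -/
theorem Cert.transport {V W : Type} [Fintype V] [DecidableEq V] [Fintype W] [DecidableEq W]
    {k : ℕ} {T D : Finset (V × V)} {A B X : Finset V} {a b : V} {s t : Fin k → V} (hk : 1 ≤ k)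
    (e : V ≃ W) (h : Cert k T D A B X a b s t) :
    Cert k (T.map (Equiv.prodCongr e e).toEmbedding) (D.map (Equiv.prodCongr e e).toEmbedding)
      (A.map e.toEmbedding) (B.map e.toEmbedding) (X.map e.toEmbedding) (e a) (e b)
      (fun i => e (s i)) (fun i => e (t i)) := by
  have hm : ∀ (S : Finset (V × V)) (u v : W),
      (u, v) ∈ S.map (Equiv.prodCongr e e).toEmbedding ↔ (e.symm u, e.symm v) ∈ S := by
    intro S u v
    rw [Finset.mem_map_equiv]
    rfl
  have hm1 : ∀ (S : Finset V) (u : W), u ∈ S.map e.toEmbedding ↔ e.symm u ∈ S := by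
    intro S u
    rw [Finset.mem_map_equiv]
  have hleave : ∀ (S : Finset (V × V)) (Y : Finset V),
      leaving (S.map (Equiv.prodCongr e e).toEmbedding) (Y.map e.toEmbedding) =
        (leaving S Y).map (Equiv.prodCongr e e).toEmbedding := by
    intro S Y
    ext ⟨u, v⟩
    unfold leaving
    rw [hm, Finset.mem_filter, Finset.mem_filter, hm, hm1, hm1]
  refine ⟨?_, ?_, Finset.map_subset_map.2 h.sub, ?_, ?_, ?_, ?_, ?_, ?_,
    e.injective.comp h.s_inj, e.injective.comp h.t_inj,
    fun i j hij => h.st i j (e.injective hij), ?_, ?_, ?_⟩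
  · refine ⟨fun v => ?_, fun u v huv => ?_⟩
    · rw [hm]
      exact h.tour.1 _
    · rw [hm, hm]
      exact h.tour.2 _ _ (fun he => huv (e.symm.injective he))
  · refine arcStrong_of_cut hk fun Y hY hY' => ?_
    have e1 : Y = (Y.map e.symm.toEmbedding).map e.toEmbedding := by
      ext u
      simp
    rw [e1, hleave, Finset.card_map]
    refine cut_of_arcStrong h.strong (hY.map) ?_
    intro he
    apply hY'
    rw [e1, he]
    ext u
    simp
  · intro v
    have h1 := h.deg (e.symm v)
    constructor
    · refine h1.1.trans (le_of_eq ?_)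
      rw [← Finset.card_map (Equiv.prodCongr e e).toEmbedding]
      congr 1
      ext ⟨u, w⟩
      rw [hm, Finset.mem_filter, Finset.mem_filter, hm]
      simp only [e.symm.injective.eq_iff]
    · refine h1.2.trans (le_of_eq ?_)
      rw [← Finset.card_map (Equiv.prodCongr e e).toEmbedding]
      congr 1
      ext ⟨u, w⟩
      rw [hm, Finset.mem_filter, Finset.mem_filter, hm]
      simp only [e.symm.injective.eq_iff]
  · have h1 : ((T.map (Equiv.prodCongr e e).toEmbedding).filter fun x =>
        x.1 ∈ A.map e.toEmbedding ∧ x.2 ∈ B.map e.toEmbedding) =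
        (T.filter fun x => x.1 ∈ A ∧ x.2 ∈ B).map (Equiv.prodCongr e e).toEmbedding := by
      ext ⟨u, v⟩
      rw [hm, Finset.mem_filter, Finset.mem_filter, hm, hm1, hm1]
    rw [h1, Finset.card_map, Finset.card_map, Finset.card_map, Finset.card_map]
    exact h.dual
  · rw [hleave, Finset.card_map, h.cut]
  · rw [hleave, hm]
    simpa using h.mem
  · rw [hm1]
    simpa using h.ha
  · rw [hm1]
    simpa using h.hb
  · intro i
    rw [hm1]
    simpa using h.sA i
  · intro i
    rw [hm1]
    simpa using h.sX i
  · intro i j hij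
    rw [hm]
    simpa using h.stair i j hij

/-- From one certificate on `Fin n0` to all `n ≥ n0`. -/
theorem cert_all {k n0 : ℕ} (hk : 1 ≤ k) {T D : Finset (Fin n0 × Fin n0)} {A B X : Finset (Fin n0)}
    {a b : Fin n0} {s t : Fin k → Fin n0} (h : Cert k T D A B X a b s t) (m : ℕ) :
    ∃ (T' D' : Finset (Fin (n0 + m) × Fin (n0 + m))) (A' B' X' : Finset (Fin (n0 + m)))
      (a' b' : Fin (n0 + m)) (s' t' : Fin k → Fin (n0 + m)),
      Cert k T' D' A' B' X' a' b' s' t' ∧ D'.card = D.card + k * m := by
  induction m with
  | zero => exact ⟨T, D, A, B, X, a, b, s, t, h, by simp⟩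
  | succ m ih =>
    obtain ⟨T1, D1, A1, B1, X1, a1, b1, s1, t1, h1, hc1⟩ := ih
    obtain ⟨T2, D2, A2, B2, X2, a2, b2, s2, t2, h2, hc2⟩ := h1.insert hk
    have e : Option (Fin (n0 + m)) ≃ Fin (n0 + (m + 1)) := Fintype.equivFinOfCardEq (by
      rw [Fintype.card_option, Fintype.card_fin]; ring)
    refine ⟨_, _, _, _, _, _, _, _, _, h2.transport hk e, ?_⟩
    rw [Finset.card_map, hc2, hc1]
    ring

/-- From one certificate on `Fin n0` to tournaments on `n ≥ n0` vertices. -/
theorem all_n {k n0 : ℕ} (hk : 1 ≤ k) {T D : Finset (Fin n0 × Fin n0)} {A B X : Finset (Fin n0)}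
    {a b : Fin n0} {s t : Fin k → Fin n0} (h : Cert k T D A B X a b s t) (n : ℕ) (hn : n0 ≤ n) :
    ∃ T' : Finset (Fin n × Fin n), IsTournament T' ∧ ArcStrong k T' ∧
      alpha k T' = D.card + k * (n - n0) ∧ alpha k T' < beta k T' := by
  obtain ⟨m, rfl⟩ := Nat.exists_eq_add_of_le hn
  obtain ⟨T', D', A', B', X', a', b', s', t', h', hc⟩ := cert_all hk h m
  refine ⟨T', h'.tour, h'.strong, ?_, ?_⟩
  · rw [h'.alpha_eq, hc, Nat.add_sub_cancel_left]
  · have h1 := h'.beta_gt
    rw [h'.alpha_eq]
    omega

end Pool.Agent.BK78
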